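import Pool.Agent.Helper83.RB.St

set_option autoImplicit false

/-!
Module HAL of project RB (MP_97dcad_al): P. Hall's theorem in the form
`StHAL`: if `Γ e ≤ ⁅N, N⁆` and `N` is nilpotent of class at most `c`, then the group has class at
most `e * (c + 1) ^ 2`.
-/

namespace Pool.Agent.Helper18.RB

open Pool.Agent.Helper83.RB

section HAL

variable {G : Type} [Group G]

/-- The three subgroups lemma modulo a normal subgroup. -/
theorem three (A B C K : Subgroup G) [K.Normal] (h1 : ⁅⁅B, C⁆, A⁆ ≤ K) (h2 : ⁅⁅C, A⁆, B⁆ ≤ K) :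
    ⁅⁅A, B⁆, C⁆ ≤ K := by
  have key : ∀ X : Subgroup G, X ≤ K ↔ X.map (QuotientGroup.mk' K) = ⊥ := by
    intro X
    rw [Subgroup.map_eq_bot_iff, QuotientGroup.ker_mk']
  rw [key] at h1 h2 ⊢
  rw [Subgroup.map_commutator, Subgroup.map_commutator] at h1 h2 ⊢
  exact Subgroup.commutator_commutator_eq_bot_of_rotate h1 h2

/-- Iterated commutators with the whole group. -/
def It (A : Subgroup G) : ℕ → Subgroup G
  | 0 => A
  | n + 1 => ⁅It A n, (⊤ : Subgroup G)⁆

theorem It_zero (A : Subgroup G) : It A 0 = A := rfl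

theorem It_succ (A : Subgroup G) (n : ℕ) : It A (n + 1) = ⁅It A n, (⊤ : Subgroup G)⁆ := rfl

theorem It_add (A : Subgroup G) (m n : ℕ) : It (It A m) n = It A (m + n) := by
  induction n with
  | zero => rfl
  | succ n ih => rw [It_succ, ih, ← Nat.add_assoc, It_succ]

theorem It_shift (A : Subgroup G) (n : ℕ) : It A (n + 1) = It ⁅A, (⊤ : Subgroup G)⁆ n := by
  have h := It_add A 1 n
  rw [Nat.add_comm n 1, ← h]
  rfl

theorem It_mono {A B : Subgroup G} (h : A ≤ B) (n : ℕ) : It A n ≤ It B n := by
  induction n with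
  | zero => exact h
  | succ n ih => exact Subgroup.commutator_mono ih le_rfl

theorem It_normal (A : Subgroup G) (hA : A.Normal) (n : ℕ) : (It A n).Normal := by
  induction n with
  | zero => exact hA
  | succ n ih =>
    rw [It_succ]
    infer_instance

theorem It_antitone (A : Subgroup G) (hA : A.Normal) {m n : ℕ} (h : m ≤ n) : It A n ≤ It A m := by
  induction n, h using Nat.le_induction with
  | base => exact le_rfl
  | succ n _ ih =>
    haveI := It_normal A hA n
    exact le_trans (Subgroup.commutator_le_left (It A n) ⊤) ih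

theorem It_le (A : Subgroup G) (hA : A.Normal) (n : ℕ) : It A n ≤ A :=
  It_antitone A hA (Nat.zero_le n)

theorem It_top (n : ℕ) : It (⊤ : Subgroup G) n = (⊤ : Subgroup G).lowerCentralSeries n := by
  induction n with
  | zero => rfl
  | succ n ih => rw [It_succ, ih, Subgroup.lowerCentralSeries_succ]

theorem comm_sup_le (A B K : Subgroup G) [K.Normal] (hA : ⁅A, (⊤ : Subgroup G)⁆ ≤ K)
    (hB : ⁅B, (⊤ : Subgroup G)⁆ ≤ K) : ⁅A ⊔ B, (⊤ : Subgroup G)⁆ ≤ K := by
  have hc : ∀ X : Subgroup G, ⁅X, (⊤ : Subgroup G)⁆ ≤ K ↔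
      X ≤ (Subgroup.center (G ⧸ K)).comap (QuotientGroup.mk' K) := by
    intro X
    rw [← Subgroup.map_le_iff_le_comap, ← Subgroup.commutator_top_right_eq_bot_iff_le_center]
    have ht : (⊤ : Subgroup (G ⧸ K)) = (⊤ : Subgroup G).map (QuotientGroup.mk' K) :=
      (Subgroup.map_top_of_surjective _ (QuotientGroup.mk'_surjective K)).symm
    rw [ht, ← Subgroup.map_commutator, Subgroup.map_eq_bot_iff, QuotientGroup.ker_mk']
  rw [hc] at hA hB ⊢
  exact sup_le hA hB

theorem It_sup_le (n : ℕ) : ∀ (A B M : Subgroup G), A.Normal → B.Normal → M.Normal →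
    It A n ≤ M → It B n ≤ M → It (A ⊔ B) n ≤ M := by
  induction n with
  | zero =>
    intro A B M _ _ _ hA hB
    exact sup_le hA hB
  | succ n ih =>
    intro A B M hAn hBn hMn hA hB
    rw [It_shift] at hA hB ⊢
    have h1 : ⁅A ⊔ B, (⊤ : Subgroup G)⁆ ≤ ⁅A, (⊤ : Subgroup G)⁆ ⊔ ⁅B, (⊤ : Subgroup G)⁆ :=
      comm_sup_le A B _ le_sup_left le_sup_right
    exact le_trans (It_mono h1 n) (ih _ _ M inferInstance inferInstance hMn hA hB)

theorem comm_comm_top (A B : Subgroup G) [A.Normal] [B.Normal] :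
    ⁅⁅A, B⁆, (⊤ : Subgroup G)⁆ ≤ ⁅⁅A, (⊤ : Subgroup G)⁆, B⁆ ⊔ ⁅A, ⁅B, (⊤ : Subgroup G)⁆⁆ := by
  apply three
  · rw [Subgroup.commutator_comm]
    exact le_sup_right
  · rw [Subgroup.commutator_comm (⊤ : Subgroup G) A]
    exact le_sup_left

/-- Iterated commutators of a commutator. -/
theorem It_comm (M : Subgroup G) (hM : M.Normal) (n : ℕ) : ∀ (A B : Subgroup G), A.Normal →
    B.Normal → (∀ a b, a + b = n → ⁅It A a, It B b⁆ ≤ M) → It ⁅A, B⁆ n ≤ M := by
  induction n with
  | zero =>
    intro A B _ _ h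
    exact h 0 0 rfl
  | succ n ih =>
    intro A B hA hB h
    rw [It_shift]
    refine le_trans (It_mono (comm_comm_top A B) n) ?_
    apply It_sup_le n _ _ M inferInstance inferInstance hM
    · apply ih _ _ inferInstance hB
      intro a b hab
      have := h (a + 1) b (by omega)
      rwa [It_shift] at this
    · apply ih _ _ hA inferInstance
      intro a b hab
      have := h a (b + 1) (by omega)
      rwa [It_shift B] at this

theorem lcs_normal (N : Subgroup G) [N.Normal] (i : ℕ) : (N.lowerCentralSeries i).Normal := by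
  induction i with
  | zero => rw [Subgroup.lowerCentralSeries_zero]; infer_instance
  | succ i ih => rw [Subgroup.lowerCentralSeries_succ]; infer_instance

theorem step2 (N : Subgroup G) [N.Normal] (e : ℕ)
    (he : (⊤ : Subgroup G).lowerCentralSeries e ≤ ⁅N, N⁆) (i : ℕ) :
    It (N.lowerCentralSeries i) ((i + 1) * e) ≤ N.lowerCentralSeries (i + 1) := by
  have hN : It N e ≤ ⁅N, N⁆ := by
    refine le_trans (It_mono le_top e) ?_
    rw [It_top]
    exact he
  induction i with
  | zero =>
    rw [Nat.zero_add, Nat.one_mul, Subgroup.lowerCentralSeries_zero,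
      Subgroup.lowerCentralSeries_succ, Subgroup.lowerCentralSeries_zero]
    exact hN
  | succ i ih =>
    haveI := lcs_normal N i
    haveI := lcs_normal N (i + 1)
    have hM := lcs_normal N (i + 1 + 1)
    rw [Subgroup.lowerCentralSeries_succ N i]
    apply It_comm _ hM _ _ _ (lcs_normal N i) inferInstance
    intro a b hab
    by_cases ha : (i + 1) * e ≤ a
    · rw [Subgroup.lowerCentralSeries_succ N (i + 1)]
      apply Subgroup.commutator_mono
      · exact le_trans (It_antitone _ (lcs_normal N i) ha) ih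
      · exact It_le N inferInstance b
    · have hb : e ≤ b := by
        have h1 : (i + 1 + 1) * e = (i + 1) * e + e := by ring
        omega
      have h1 : ⁅It (N.lowerCentralSeries i) a, It N b⁆ ≤ ⁅N.lowerCentralSeries i, ⁅N, N⁆⁆ :=
        Subgroup.commutator_mono (It_le _ (lcs_normal N i) a)
          (le_trans (It_antitone N inferInstance hb) hN)
      refine le_trans h1 ?_
      rw [Subgroup.commutator_comm]
      apply three
      · rw [Subgroup.commutator_comm N (N.lowerCentralSeries i)]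
        exact le_rfl
      · exact le_rfl

/-- `T j = 1 + 2 + ⋯ + (j + 1)`. -/
def T : ℕ → ℕ
  | 0 => 1
  | j + 1 => T j + (j + 2)

theorem T_le (j : ℕ) : T j ≤ (j + 2) ^ 2 := by
  induction j with
  | zero => simp [T]
  | succ j ih =>
    show T j + (j + 2) ≤ (j + 1 + 2) ^ 2
    nlinarith

theorem step3 (N : Subgroup G) [N.Normal] (e : ℕ)
    (he : (⊤ : Subgroup G).lowerCentralSeries e ≤ ⁅N, N⁆) (j : ℕ) :
    (⊤ : Subgroup G).lowerCentralSeries (e * T j) ≤ N.lowerCentralSeries (j + 1) := by
  induction j with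
  | zero =>
    show (⊤ : Subgroup G).lowerCentralSeries (e * 1) ≤ N.lowerCentralSeries (0 + 1)
    rw [Nat.mul_one]
    exact he
  | succ j ih =>
    have h1 : e * T (j + 1) = e * T j + (j + 1 + 1) * e := by
      show e * (T j + (j + 2)) = _
      ring
    rw [h1, ← It_top, ← It_add]
    refine le_trans (It_mono ?_ _) (step2 N e he (j + 1))
    rw [It_top]
    exact ih

end HAL

/-- The module HAL. -/
theorem hHAL : StHAL := by
  intro G _ N _ e c he hc
  rcases Nat.eq_zero_or_pos c with h0 | h0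
  · subst h0
    rw [Subgroup.lowerCentralSeries_zero] at hc
    subst hc
    rw [Subgroup.commutator_bot_right] at he
    have h1 : e * (0 + 1) ^ 2 = e := by ring
    rw [h1]
    exact le_bot_iff.mp he
  · obtain ⟨j, rfl⟩ : ∃ j, c = j + 1 := ⟨c - 1, by omega⟩
    have h1 := step3 N e he j
    rw [hc] at h1
    have h2 : e * T j ≤ e * (j + 1 + 1) ^ 2 := Nat.mul_le_mul_left e (T_le j)
    exact le_bot_iff.mp (le_trans (Subgroup.lowerCentralSeries_antitone _ h2) h1)

end Pool.Agent.Helper18.RB
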